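import Pool.Agent.H.MP_4c5958_al.SO.Trd

/-!
# Module SQ/Alg: adjoining one algebraic element more does not change the transcendence degree
-/

set_option autoImplicit false

noncomputable section

namespace Pool.Agent.H.MP_4c5958_al.SQ

open Pool.Agent.H.MP_4c5958_al.SO

universe u

/-- Plan: `(adjoin (adjoin F {ρ}) U).restrictScalars F = adjoin F ({ρ} ∪ U)`
(`IntermediateField.adjoin_adjoin_left`), `trdeg_add_eq F (adjoin F {ρ})`, `trdeg F (adjoin F {ρ}) = 0`
as `ρ` is algebraic, and `trdeg_adjoin_le` over the base field `adjoin F {ρ}`. -/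
theorem trdeg_insert_le {F E : Type u} [Field F] [Field E] [Algebra F E] (ρ : E)
    (hρ : IsAlgebraic F ρ) (U : Finset E) :
    Algebra.trdeg F (IntermediateField.adjoin F (insert ρ (U : Set E))) ≤
      (U.card : Cardinal.{u}) := by
  have h0 : Algebra.trdeg F (IntermediateField.adjoin F ({ρ} : Set E)) = 0 :=
    trdeg_eq_zero_iff.2 (IntermediateField.isAlgebraic_adjoin_simple hρ.isIntegral)
  have h1 := trdeg_add_eq F (IntermediateField.adjoin F ({ρ} : Set E))
    (A := IntermediateField.adjoin (IntermediateField.adjoin F ({ρ} : Set E)) (U : Set E))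
  rw [h0, zero_add] at h1
  have h2 : IntermediateField.adjoin F (insert ρ (U : Set E)) ≤
      (IntermediateField.adjoin (IntermediateField.adjoin F ({ρ} : Set E)) (U : Set E)).restrictScalars F := by
    rw [IntermediateField.adjoin_adjoin_left, Set.singleton_union]
  have h3 : Algebra.trdeg F (IntermediateField.adjoin F (insert ρ (U : Set E))) ≤
      Algebra.trdeg F (IntermediateField.adjoin (IntermediateField.adjoin F ({ρ} : Set E)) (U : Set E)) :=
    trdeg_le_of_injective (A' := IntermediateField.adjoin (IntermediateField.adjoin F ({ρ} : Set E)) (U : Set E))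
      (IntermediateField.inclusion h2) (IntermediateField.inclusion_injective h2)
  exact h3.trans (h1.symm.le.trans (trdeg_adjoin_le U))

end Pool.Agent.H.MP_4c5958_al.SQ
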