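import Pool.Agent.H.MP_4c5958_al.SO.Defs

/-!
# Module SQ/Df: the vector `v`

Let `ρ ^ 2 + ρ = 1`, `σ ρ = ρ`. For `s` fixed by `τ` put
`v = σ ^ 4 s + ρ σ ^ 3 s - ρ σ ^ 2 s - σ s`. Then `σ ^ 2 v = ρ σ v - v`; `τ v = - v` if `k = 4`
and `τ ρ = ρ`; `τ v = (1 + ρ) v` if `k = 2` and `τ ρ = - 1 - ρ`.
-/

set_option autoImplicit false

noncomputable section

namespace Pool.Agent.H.MP_4c5958_al.SQ

open Pool.Agent.H.MP_4c5958_al.SO

universe u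

/-- the vector `v` -/
def vv {K E : Type u} [Field K] [Field E] [Algebra K E] (D : GD K E) (ρ s : E) : E :=
  (D.σ ^ 4) s + ρ * (D.σ ^ 3) s - ρ * (D.σ ^ 2) s - D.σ s

end Pool.Agent.H.MP_4c5958_al.SQ
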