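import Pool.Agent.H.MP_4c5958_al.SQ.Df

/-!
# Module SQ/ExS: a good `s`
-/

set_option autoImplicit false

noncomputable section

namespace Pool.Agent.H.MP_4c5958_al.SQ

open Pool.Agent.H.MP_4c5958_al.SO

universe u

variable {K E : Type u} [Field K] [Field E] [Algebra K E] (D : GD K E)

/-- The five conjugates `σ ^ i θ`, `i < 5`, are different (`D.σθ`, `D.hσ`; five is a prime). -/
theorem conj_ne {i : ℕ} (h0 : 0 < i) (h5 : i < 5) : (D.σ ^ i) D.θ ≠ D.θ := by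
  intro h
  have h1 : D.σ ^ 5 = 1 := by
    rw [← D.hσ]
    exact pow_orderOf_eq_one _
  have h2 : ∀ m : ℕ, (D.σ ^ (i * m)) D.θ = D.θ := by
    intro m
    induction m with
    | zero => simp
    | succ m ih =>
      rw [Nat.mul_succ, pow_add, AlgEquiv.mul_apply, h, ih]
  have h3 : ∀ n : ℕ, (D.σ ^ (5 * n + 1)) D.θ = D.σ D.θ := by
    intro n
    rw [pow_add, pow_mul, h1, one_pow, one_mul, pow_one]
  apply D.σθ
  obtain ⟨m, n, hmn⟩ : ∃ m n : ℕ, i * m = 5 * n + 1 := by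
    interval_cases i
    · exact ⟨1, 0, rfl⟩
    · exact ⟨3, 1, rfl⟩
    · exact ⟨2, 1, rfl⟩
    · exact ⟨4, 3, rfl⟩
  rw [← h3 n, ← hmn]
  exact h2 m

private theorem ExS_add (ρ s s' : E) : vv D ρ (s + s') = vv D ρ s + vv D ρ s' := by
  unfold vv
  rw [map_add, map_add, map_add, map_add]
  ring

private theorem ExS_quad (ρ : E) (a b c : ℕ → E)
    (hq : ∀ i, b i ^ 2 - ρ * a i * b i + a i ^ 2 = 0)
    (hp : ∀ i j, 2 * (b i * b j) - ρ * (a i * b j + a j * b i) + 2 * (a i * a j) = 0) :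
    (c 0 * b 0 + c 1 * b 1 + c 2 * b 2 + c 3 * b 3 + c 4 * b 4) ^ 2 -
      ρ * (c 0 * a 0 + c 1 * a 1 + c 2 * a 2 + c 3 * a 3 + c 4 * a 4) *
        (c 0 * b 0 + c 1 * b 1 + c 2 * b 2 + c 3 * b 3 + c 4 * b 4) +
      (c 0 * a 0 + c 1 * a 1 + c 2 * a 2 + c 3 * a 3 + c 4 * a 4) ^ 2 = 0 := by
  linear_combination c 0 ^ 2 * hq 0 + c 1 ^ 2 * hq 1 + c 2 ^ 2 * hq 2 + c 3 ^ 2 * hq 3 + c 4 ^ 2 * hq 4 +
    c 0 * c 1 * hp 0 1 + c 0 * c 2 * hp 0 2 + c 0 * c 3 * hp 0 3 + c 0 * c 4 * hp 0 4 + c 1 * c 2 * hp 1 2 + c 1 * c 3 * hp 1 3 + c 1 * c 4 * hp 1 4 + c 2 * c 3 * hp 2 3 + c 2 * c 4 * hp 2 4 + c 3 * c 4 * hp 3 4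

/-- There is `s` fixed by `τ` with `(σ v) ^ 2 - ρ v σ v + v ^ 2 ≠ 0`: otherwise equality holds for
`s = θ ^ i` and `s = θ ^ i + θ ^ j`, `i, j < 5`, so the polarised identity
`2 σv σv' - ρ (v σv' + v' σv) + 2 v v' = 0` holds for all pairs; take the coefficients `c j` of the
Lagrange basis polynomial of degree four (value `1` at `θ`, value `0` at `σ ^ i θ`, `i = 1, .., 4`):
`∑ c j v(θ ^ j) = 0`, `∑ c j σ(v(θ ^ j)) = 1`, so `1 - 0 + 0 = 0`. -/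
theorem exists_s {ρ : E} (hσρ : D.σ ρ = ρ) :
    ∃ s : E, D.τ s = s ∧
      (D.σ (vv D ρ s)) ^ 2 - ρ * vv D ρ s * D.σ (vv D ρ s) + vv D ρ s ^ 2 ≠ 0 := by
  by_contra hcon
  push Not at hcon
  have h5 : D.σ ^ 5 = 1 := by
    rw [← D.hσ]
    exact pow_orderOf_eq_one _
  have hfix : ∀ j : ℕ, D.τ (D.θ ^ j) = D.θ ^ j := by
    intro j
    rw [map_pow, D.τθ]
  have hsucc : ∀ n : ℕ, D.σ ((D.σ ^ n) D.θ) = (D.σ ^ (n + 1)) D.θ := by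
    intro n
    rw [pow_succ', AlgEquiv.mul_apply]
  obtain ⟨t1, ht1⟩ : ∃ t, t = (D.σ ^ 1) D.θ := ⟨_, rfl⟩
  obtain ⟨t2, ht2⟩ : ∃ t, t = (D.σ ^ 2) D.θ := ⟨_, rfl⟩
  obtain ⟨t3, ht3⟩ : ∃ t, t = (D.σ ^ 3) D.θ := ⟨_, rfl⟩
  obtain ⟨t4, ht4⟩ : ∃ t, t = (D.σ ^ 4) D.θ := ⟨_, rfl⟩
  have s1 : D.σ t1 = t2 := by rw [ht1, ht2]; exact hsucc 1
  have s2 : D.σ t2 = t3 := by rw [ht2, ht3]; exact hsucc 2
  have s3 : D.σ t3 = t4 := by rw [ht3, ht4]; exact hsucc 3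
  have s4 : D.σ t4 = D.θ := by
    rw [ht4, hsucc 4, h5]
    rfl
  have n1 : D.θ - t1 ≠ 0 := by
    rw [sub_ne_zero, ht1]
    exact (conj_ne D (by norm_num) (by norm_num)).symm
  have n2 : D.θ - t2 ≠ 0 := by
    rw [sub_ne_zero, ht2]
    exact (conj_ne D (by norm_num) (by norm_num)).symm
  have n3 : D.θ - t3 ≠ 0 := by
    rw [sub_ne_zero, ht3]
    exact (conj_ne D (by norm_num) (by norm_num)).symm
  have n4 : D.θ - t4 ≠ 0 := by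
    rw [sub_ne_zero, ht4]
    exact (conj_ne D (by norm_num) (by norm_num)).symm
  have ha : ∀ j : ℕ, vv D ρ (D.θ ^ j) = t4 ^ j + ρ * t3 ^ j - ρ * t2 ^ j - t1 ^ j := by
    intro j
    unfold vv
    rw [map_pow, map_pow, map_pow, map_pow, ht1, ht2, ht3, ht4, pow_one]
  have hb : ∀ j : ℕ, D.σ (vv D ρ (D.θ ^ j)) =
      D.θ ^ j + ρ * t4 ^ j - ρ * t3 ^ j - t2 ^ j := by
    intro j
    rw [ha j, map_sub, map_sub, map_add, map_mul, map_mul, map_pow, map_pow, map_pow, map_pow,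
      s1, s2, s3, s4, hσρ]
  have hq : ∀ j : ℕ, (D.σ (vv D ρ (D.θ ^ j))) ^ 2 -
      ρ * vv D ρ (D.θ ^ j) * D.σ (vv D ρ (D.θ ^ j)) + vv D ρ (D.θ ^ j) ^ 2 = 0 :=
    fun j => hcon _ (hfix j)
  have hp : ∀ i j : ℕ, 2 * (D.σ (vv D ρ (D.θ ^ i)) * D.σ (vv D ρ (D.θ ^ j))) -
      ρ * (vv D ρ (D.θ ^ i) * D.σ (vv D ρ (D.θ ^ j)) +
        vv D ρ (D.θ ^ j) * D.σ (vv D ρ (D.θ ^ i))) +
      2 * (vv D ρ (D.θ ^ i) * vv D ρ (D.θ ^ j)) = 0 := by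
    intro i j
    have h1 := hcon (D.θ ^ i + D.θ ^ j) (by rw [map_add, hfix, hfix])
    rw [ExS_add, map_add] at h1
    linear_combination h1 - hq i - hq j
  let c : ℕ → E := fun j => match j with
    | 0 => t1 * t2 * t3 * t4
    | 1 => -(t1 * t2 * t3 + t1 * t2 * t4 + t1 * t3 * t4 + t2 * t3 * t4)
    | 2 => t1 * t2 + t1 * t3 + t1 * t4 + t2 * t3 + t2 * t4 + t3 * t4
    | 3 => -(t1 + t2 + t3 + t4)
    | _ => 1
  have hmain := ExS_quad ρ (fun j => vv D ρ (D.θ ^ j)) (fun j => D.σ (vv D ρ (D.θ ^ j))) c hq hp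
  have hA : c 0 * vv D ρ (D.θ ^ 0) + c 1 * vv D ρ (D.θ ^ 1) + c 2 * vv D ρ (D.θ ^ 2) +
      c 3 * vv D ρ (D.θ ^ 3) + c 4 * vv D ρ (D.θ ^ 4) = 0 := by
    rw [ha, ha, ha, ha, ha]
    simp only [c]
    ring
  have hB : c 0 * D.σ (vv D ρ (D.θ ^ 0)) + c 1 * D.σ (vv D ρ (D.θ ^ 1)) +
      c 2 * D.σ (vv D ρ (D.θ ^ 2)) + c 3 * D.σ (vv D ρ (D.θ ^ 3)) +
      c 4 * D.σ (vv D ρ (D.θ ^ 4)) =
      (D.θ - t1) * (D.θ - t2) * (D.θ - t3) * (D.θ - t4) := by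
    rw [hb, hb, hb, hb, hb]
    simp only [c]
    ring
  simp only [hA, hB] at hmain
  have hne : (D.θ - t1) * (D.θ - t2) * (D.θ - t3) * (D.θ - t4) ≠ 0 :=
    mul_ne_zero (mul_ne_zero (mul_ne_zero n1 n2) n3) n4
  apply pow_ne_zero 2 hne
  linear_combination hmain

end Pool.Agent.H.MP_4c5958_al.SQ
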