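import Pool.Agent.H.MP_4c5958_al.SQ.Rec
import Pool.Agent.H.MP_4c5958_al.SQ.ExS

/-!
# Module SQ/ExE: one parameter is enough if `X ^ 2 + X - 1` has a suitable root
-/

set_option autoImplicit false

noncomputable section

namespace Pool.Agent.H.MP_4c5958_al.SQ

open Pool.Agent.H.MP_4c5958_al.SO

universe u

variable {K E : Type u} [Field K] [Field E] [Algebra K E] (D : GD K E)

/-- `e = σ v / v`: `σ e = ρ - 1 / e`; `τ e = e` if `τ = 1`, `τ e = ρ - e` if `k = 4`,
`τ e = ρ e - 1` if `k = 2` (`vv_rec`, `tau_four`, `tau_two`, `exists_s`). -/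
theorem exists_e {ρ : E} (hρ : ρ ^ 2 + ρ = 1) (hσρ : D.σ ρ = ρ)
    (hτ : D.r = 1 ∨ (D.r = 2 ∧ D.τ ρ = ρ) ∨ (D.r = 4 ∧ D.τ ρ = -1 - ρ)) :
    ∃ e : E, D.σ e ≠ e ∧ D.σ e = ρ - e⁻¹ ∧
      (D.τ e = e ∨ D.τ e = ρ - e ∨ D.τ e = ρ * e - 1) := by
  obtain ⟨s, hs, hQ⟩ := exists_s D hσρ
  have hrec := vv_rec D hρ hσρ s
  obtain ⟨v, hv⟩ : ∃ v, v = vv D ρ s := ⟨_, rfl⟩
  rw [← hv] at hQ hrec
  obtain ⟨w, hw⟩ : ∃ w, w = D.σ v := ⟨_, rfl⟩
  rw [← hw] at hQ hrec
  have hv0 : v ≠ 0 := by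
    intro h
    apply hQ
    rw [hw, h]
    simp
  have hw0 : w ≠ 0 := by
    rw [hw]
    exact fun h => hv0 ((map_eq_zero_iff D.σ D.σ.injective).1 h)
  have hσe : D.σ (w / v) = ρ - (w / v)⁻¹ := by
    rw [map_div₀, hrec, ← hw, inv_div, sub_div, mul_div_cancel_right₀ _ hw0]
  refine ⟨w / v, ?_, hσe, ?_⟩
  · rw [hσe, inv_div]
    intro h
    apply hQ
    field_simp at h
    linear_combination -h
  · have hmul : ∀ x, D.τ (D.σ x) = (D.σ ^ D.k) (D.τ x) := by
      intro x
      have := congrArg (fun g : E ≃ₐ[K] E => g x) D.rel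
      simpa only [AlgEquiv.mul_apply] using this
    rcases hτ with h1 | ⟨h2, hτρ⟩ | ⟨h4, hτρ⟩
    · left
      have : D.τ = 1 := by
        rw [← orderOf_eq_one_iff, D.hτ, h1]
      rw [this]
      rfl
    · right
      left
      have hk : D.k = 4 := by
        rcases D.hrk with ⟨h, _⟩ | ⟨_, h⟩ | ⟨h, _⟩
        · omega
        · exact h
        · omega
      have hτv : D.τ v = -v := by
        rw [hv]
        exact tau_four D hk hτρ hs
      have h3 : D.σ (D.σ w) = -ρ * w - ρ * v := by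
        rw [hrec, map_sub, map_mul, hσρ, hrec, ← hw]
        linear_combination w * hρ
      have h5 : D.σ (D.σ (D.σ w)) = ρ * v - w := by
        rw [h3, map_sub, map_mul, map_mul, map_neg, hσρ, hrec, ← hw]
        linear_combination (-w) * hρ
      have h6 : (D.σ ^ 4) v = ρ * v - w := by
        rw [← h5, hw]
        rfl
      have hτw : D.τ w = -(ρ * v - w) := by
        rw [hw, hmul, hk, hτv, map_neg, h6, hw]
      rw [map_div₀, hτw, hτv, neg_div_neg_eq, sub_div, mul_div_cancel_right₀ _ hv0]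
    · right
      right
      have hk : D.k = 2 := by
        rcases D.hrk with ⟨h, _⟩ | ⟨h, _⟩ | ⟨_, h⟩
        · omega
        · omega
        · exact h
      have hτv : D.τ v = (1 + ρ) * v := by
        rw [hv]
        exact tau_two D hρ hk hτρ hs
      have h6 : (D.σ ^ 2) v = ρ * w - v := by
        rw [← hrec, hw]
        rfl
      have h1ρ : (1 + ρ) ≠ 0 := by
        intro h
        have : ρ * (1 + ρ) = 1 := by linear_combination hρ
        rw [h, mul_zero] at this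
        exact zero_ne_one this
      have hσ2ρ : (D.σ ^ 2) (1 + ρ) = 1 + ρ := by
        have : (D.σ ^ 2) (1 + ρ) = D.σ (D.σ (1 + ρ)) := rfl
        rw [this, map_add, map_one, hσρ, map_add, map_one, hσρ]
      have hτw : D.τ w = (1 + ρ) * (ρ * w - v) := by
        rw [hw, hmul, hk, hτv, map_mul, hσ2ρ, h6, hw]
      rw [map_div₀, hτw, hτv, mul_div_mul_left _ _ h1ρ, sub_div, mul_div_assoc, div_self hv0]

end Pool.Agent.H.MP_4c5958_al.SQ
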