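import Pool.Agent.H.MP_4c5958_al.SO.Main
import Pool.Agent.H.MP_4c5958_al.SQ.Alg
import Pool.Agent.H.MP_4c5958_al.SQ.ExE

/-!
# Module SQ/Main: the assembly
-/

set_option autoImplicit false

noncomputable section

open scoped TensorProduct
open Polynomial

namespace Pool.Agent.H.MP_4c5958_al.SQ

open Pool.Agent.H.MP_4c5958_al.SO

universe u

theorem main_gen {F K E A : Type u} [Field F] [Field K] [Field E] [Algebra F K] [Algebra K E]
    [Algebra F E] [IsScalarTower F K E] (D : GD K E) [Ring A] [Algebra K A]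
    [Algebra.IsCentral K A] [IsSimpleRing A] [IsDomain A] (hdim : Module.finrank K A = 25) (x : A)
    (hD : minpoly K D.θ = minpoly K x) (S0 : Set E)
    (hσ0 : ∀ s ∈ S0, D.σ s ∈ IntermediateField.adjoin F S0)
    (hτ0 : ∀ s ∈ S0, D.τ s ∈ IntermediateField.adjoin F S0)
    (e0 : E) (he0 : e0 ∈ IntermediateField.adjoin F S0) (hσe0 : D.σ e0 ≠ e0) (N : ℕ)
    (hN : ∀ S : Finset E, S.card ≤ (if D.r = 4 then 2 else 1) →
      Algebra.trdeg F (IntermediateField.adjoin F (S0 ∪ (S : Set E))) ≤ (N : Cardinal.{u})) :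
    ∃ L : IntermediateField F K,
      (∃ (A₀ : Type u) (_ : Ring A₀) (_ : Algebra L A₀), (Algebra.IsCentral L A₀ ∧
        IsSimpleRing A₀ ∧ Module.finrank L A₀ = 25) ∧ Nonempty (K ⊗[L] A₀ ≃ₐ[K] A)) ∧
      Algebra.trdeg F L ≤ (N : Cardinal.{u}) := by
  have hfd := D.fin
  have hgal := D.gal
  obtain ⟨B, _, _, ⟨P⟩⟩ := exists_AD D hdim x hD.symm
  obtain ⟨S, u, b, d, hScard, hσS, hτS, hb, hd, hu0, hu, h5, hT⟩ := normal_form (F := F) P
  obtain ⟨U, hU⟩ : ∃ U : Set E, U = S0 ∪ (S : Set E) := ⟨_, rfl⟩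
  obtain ⟨L, hLdef⟩ : ∃ L : IntermediateField F E,
      L = IntermediateField.adjoin F U := ⟨_, rfl⟩
  have hS0L : IntermediateField.adjoin F S0 ≤ L := by
    rw [hLdef]
    exact IntermediateField.adjoin.mono F _ _ (by rw [hU]; exact Set.subset_union_left)
  have hSL : IntermediateField.adjoin F (S : Set E) ≤ L := by
    rw [hLdef]
    exact IntermediateField.adjoin.mono F _ _ (by rw [hU]; exact Set.subset_union_right)
  have h1σ : ∀ e ∈ L, D.σ e ∈ L := by
    intro e he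
    rw [hLdef] at he
    refine adjoin_stable U D.σ L (le_of_eq hLdef.symm) (fun s hs => ?_) e he
    rw [hU] at hs
    rcases hs with h | h
    · exact hS0L (hσ0 s h)
    · rw [hσS s h]
      exact hSL (IntermediateField.subset_adjoin F _ h)
  have h1τ : ∀ e ∈ L, D.τ e ∈ L := by
    intro e he
    rw [hLdef] at he
    refine adjoin_stable U D.τ L (le_of_eq hLdef.symm) (fun s hs => ?_) e he
    rw [hU] at hs
    rcases hs with h | h
    · exact hS0L (hτ0 s h)
    · exact hSL (hτS s h)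
  have h1 := stable_all D L h1σ h1τ
  have h2 := faithful D L h1σ h1τ e0 (hS0L he0) hσe0
  obtain ⟨B₁, κ, _, w, hw, hco, hK, hTB, hKc⟩ :=
    exists_form P L h1 h2 hu0 hu (hSL hb) (hSL hd) h5 hT
  obtain ⟨m0, hm0, hm1⟩ := exists_trace D
  have hr : 0 < D.r := by
    rcases D.hrk with ⟨h, _⟩ | ⟨h, _⟩ | ⟨h, _⟩ <;> omega
  have hm : ∑ j ∈ Finset.range D.r, (P.T ^ j) (P.ι m0) = 1 := by
    simp_rw [T_pow_ι]
    rw [← map_sum, hm1, map_one]
  obtain ⟨L', hL'⟩ : ∃ L' : IntermediateField F K, L' = L.comap (IsScalarTower.toAlgHom F K E) :=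
    ⟨_, rfl⟩
  have hmem : ∀ c : K, c ∈ L' ↔ algebraMap K E c ∈ L := by
    intro c
    rw [hL']
    rfl
  obtain ⟨A₀, hA₀, φ, hφ⟩ := exists_descent L' P.inc P.inc_inj P.T D.r
    hr P.Tr P.Tinc P.Tfix (P.ι m0) hm B₁ w hw (fun y hy s => (hmem _).2 (hco y hy s))
    (fun c hc => hK c ((hmem c).1 hc)) hTB
  have hc : ∀ c : K, algebraMap K A c ∈ A₀ → c ∈ L' := by
    intro c hc
    have := (hA₀ _).1 hc
    rw [AlgHom.commutes] at this
    exact (hmem c).2 (hKc c this)
  refine ⟨L', ⟨A₀, inferInstance, inferInstance, csa_of_form hdim _ A₀ φ hφ hc, ⟨φ⟩⟩, ?_⟩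
  rw [hL']
  refine (trdeg_comap_le L).trans ?_
  rw [hLdef, hU]
  exact hN S hScard

theorem main_rho {F K E A : Type u} [Field F] [Field K] [Field E] [Algebra F K] [Algebra K E]
    [Algebra F E] [IsScalarTower F K E] (D : GD K E) [Ring A] [Algebra K A]
    [Algebra.IsCentral K A] [IsSimpleRing A] [IsDomain A] (hdim : Module.finrank K A = 25) (x : A)
    (hD : minpoly K D.θ = minpoly K x) {ρ : E} (hρ : ρ ^ 2 + ρ = 1) (hσρ : D.σ ρ = ρ)
    (hτ : D.r = 1 ∨ (D.r = 2 ∧ D.τ ρ = ρ) ∨ (D.r = 4 ∧ D.τ ρ = -1 - ρ)) :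
    ∃ L : IntermediateField F K,
      (∃ (A₀ : Type u) (_ : Ring A₀) (_ : Algebra L A₀), (Algebra.IsCentral L A₀ ∧
        IsSimpleRing A₀ ∧ Module.finrank L A₀ = 25) ∧ Nonempty (K ⊗[L] A₀ ≃ₐ[K] A)) ∧
      Algebra.trdeg F L ≤ (1 + (if D.r = 4 then 2 else 1) : ℕ) := by
  classical
  obtain ⟨e, he1, he2, he3⟩ := exists_e D hρ hσρ hτ
  obtain ⟨S0, hS0⟩ : ∃ S0 : Set E, S0 = {ρ, e} := ⟨_, rfl⟩
  have hρS : ρ ∈ IntermediateField.adjoin F S0 :=
    IntermediateField.subset_adjoin F _ (by rw [hS0]; simp)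
  have heS : e ∈ IntermediateField.adjoin F S0 :=
    IntermediateField.subset_adjoin F _ (by rw [hS0]; simp)
  have hτρ : D.τ ρ = ρ ∨ D.τ ρ = -1 - ρ := by
    rcases hτ with h | ⟨_, h⟩ | ⟨_, h⟩
    · left
      have : D.τ = 1 := by
        rw [← orderOf_eq_one_iff, D.hτ, h]
      rw [this]
      rfl
    · exact Or.inl h
    · exact Or.inr h
  have halg : IsAlgebraic F ρ := by
    refine ⟨X ^ 2 + X - 1, ?_, ?_⟩
    · intro h
      have := congrArg (fun p : F[X] => p.coeff 2) h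
      simp [coeff_X, coeff_one] at this
    · simp only [map_sub, map_add, map_pow, aeval_X, map_one]
      rw [hρ, sub_self]
  refine main_gen (F := F) D hdim x hD S0 ?_ ?_ e heS he1 _ ?_
  · intro s hs
    rw [hS0] at hs
    rcases hs with h | h
    · rw [h, hσρ]
      exact hρS
    · rw [Set.mem_singleton_iff.1 h, he2]
      exact sub_mem hρS (inv_mem heS)
  · intro s hs
    rw [hS0] at hs
    rcases hs with h | h
    · rw [h]
      rcases hτρ with h' | h' <;> rw [h']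
      · exact hρS
      · exact sub_mem (neg_mem (one_mem _)) hρS
    · rw [Set.mem_singleton_iff.1 h]
      rcases he3 with h' | h' | h' <;> rw [h']
      · exact heS
      · exact sub_mem hρS heS
      · exact sub_mem (mul_mem hρS heS) (one_mem _)
  · intro S hS
    have h1 : S0 ∪ (S : Set E) = insert ρ ((insert e S : Finset E) : Set E) := by
      rw [hS0, Finset.coe_insert]
      ext y
      simp [or_assoc]
    rw [h1]
    refine (trdeg_insert_le ρ halg (insert e S)).trans ?_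
    refine Nat.cast_le.2 ((Finset.card_insert_le _ _).trans ?_)
    omega

/-- Clause for a root in `K`, group of order `5` or `10`. -/
theorem main_two {F K A : Type u} [Field F] [Field K] [Algebra F K] [Ring A] [Algebra K A]
    [Algebra.IsCentral K A] [IsSimpleRing A] (hdim : Module.finrank K A = 25) (x : A)
    (hirr : Irreducible (minpoly K x)) (hdeg : (minpoly K x).natDegree = 5)
    (hsep : (minpoly K x).Separable) (hsol : Group.IsSolvable (minpoly K x).Gal)
    (hne : Nat.card (minpoly K x).Gal ≠ 20) (ρ : K) (hρ : ρ ^ 2 + ρ = 1) :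
    ∃ L : IntermediateField F K,
      (∃ (A₀ : Type u) (_ : Ring A₀) (_ : Algebra L A₀), (Algebra.IsCentral L A₀ ∧
        IsSimpleRing A₀ ∧ Module.finrank L A₀ = 25) ∧ Nonempty (K ⊗[L] A₀ ≃ₐ[K] A)) ∧
      Algebra.trdeg F L ≤ (2 : ℕ) := by
  by_cases hdom : IsDomain A
  swap
  · obtain ⟨e⟩ := split_of_not_domain hdim hdom
    refine ⟨⊥, form_of_split e ⊥, ?_⟩
    rw [trdeg_bot]
    exact zero_le
  have hfin : FiniteDimensional K A := Module.finite_of_finrank_pos (by rw [hdim]; norm_num)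
  have hint : IsIntegral K x := IsIntegral.of_finite K x
  obtain ⟨D, hD, hcard⟩ := exists_GD (minpoly K x) hirr (minpoly.monic hint) hdeg hsep hsol
  have hr : D.r = 1 ∨ D.r = 2 := by
    rcases D.hrk with ⟨h, _⟩ | ⟨h, _⟩ | ⟨h, _⟩ <;> omega
  obtain ⟨L, hL1, hL2⟩ := main_rho (F := F) D hdim x hD
    (ρ := algebraMap K _ ρ) (by rw [← map_pow, ← map_add, hρ, map_one]) (D.σ.commutes ρ)
    (by
      rcases hr with h | h
      · exact Or.inl h
      · exact Or.inr (Or.inl ⟨h, D.τ.commutes ρ⟩))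
  refine ⟨L, hL1, hL2.trans (Nat.cast_le.2 ?_)⟩
  rw [if_neg (by omega)]

/-- Clause for a root in the splitting field but not in `K`, group of order `20`. -/
theorem main_three {F K A : Type u} [Field F] [Field K] [Algebra F K] [Ring A] [Algebra K A]
    [Algebra.IsCentral K A] [IsSimpleRing A] (hdim : Module.finrank K A = 25) (x : A)
    (hirr : Irreducible (minpoly K x)) (hdeg : (minpoly K x).natDegree = 5)
    (hsep : (minpoly K x).Separable) (hsol : Group.IsSolvable (minpoly K x).Gal)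
    (hc20 : Nat.card (minpoly K x).Gal = 20) (ρ : (minpoly K x).SplittingField)
    (hρ : ρ ^ 2 + ρ = 1) (hK : ∀ c : K, c ^ 2 + c ≠ 1) :
    ∃ L : IntermediateField F K,
      (∃ (A₀ : Type u) (_ : Ring A₀) (_ : Algebra L A₀), (Algebra.IsCentral L A₀ ∧
        IsSimpleRing A₀ ∧ Module.finrank L A₀ = 25) ∧ Nonempty (K ⊗[L] A₀ ≃ₐ[K] A)) ∧
      Algebra.trdeg F L ≤ (3 : ℕ) := by
  by_cases hdom : IsDomain A
  swap
  · obtain ⟨e⟩ := split_of_not_domain hdim hdom
    refine ⟨⊥, form_of_split e ⊥, ?_⟩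
    rw [trdeg_bot]
    exact zero_le
  have hfin : FiniteDimensional K A := Module.finite_of_finrank_pos (by rw [hdim]; norm_num)
  have hint : IsIntegral K x := IsIntegral.of_finite K x
  obtain ⟨D, hD, hcard⟩ := exists_GD (minpoly K x) hirr (minpoly.monic hint) hdeg hsep hsol
  have hr : D.r = 4 := by
    rcases D.hrk with ⟨h, _⟩ | ⟨h, _⟩ | ⟨h, _⟩ <;> omega
  have hgal := D.gal
  have hfd := D.fin
  have two : ∀ g : (minpoly K x).SplittingField ≃ₐ[K] (minpoly K x).SplittingField,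
      g ρ = ρ ∨ g ρ = -1 - ρ := by
    intro g
    have h1 : g ρ ^ 2 + g ρ = 1 := by rw [← map_pow, ← map_add, hρ, map_one]
    have h2 : (g ρ - ρ) * (g ρ + 1 + ρ) = 0 := by linear_combination h1 - hρ
    rcases mul_eq_zero.1 h2 with h | h
    · exact Or.inl (sub_eq_zero.1 h)
    · exact Or.inr (by linear_combination h)
  have hσ2 : (D.σ ^ 2) ρ = ρ := by
    have h3 : (D.σ ^ 2) ρ = D.σ (D.σ ρ) := rfl
    rw [h3]
    rcases two D.σ with h | h
    · rw [h, h]
    · rw [h, map_sub, map_neg, map_one, h]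
      ring
  have hσ : D.σ ρ = ρ := by
    have h4 : D.σ = (D.σ ^ 2) ^ 3 := by
      rw [← pow_mul, ← pow_mod_orderOf, D.hσ]
      norm_num
    rw [h4]
    exact Fth_pow hσ2 3
  have hτ : D.τ ρ = -1 - ρ := by
    rcases two D.τ with h | h
    · exfalso
      have h5 : ρ ∈ Set.range (algebraMap K (minpoly K x).SplittingField) := by
        refine (IsGalois.mem_range_algebraMap_iff_fixed ρ).2 fun g => ?_
        obtain ⟨i, -, j, -, rfl⟩ := D.gen g
        rw [AlgEquiv.mul_apply, Fth_pow h j, Fth_pow hσ i]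
      obtain ⟨c, hc⟩ := h5
      apply hK c
      apply (algebraMap K (minpoly K x).SplittingField).injective
      rw [map_add, map_pow, hc, hρ, map_one]
    · exact h
  obtain ⟨L, hL1, hL2⟩ := main_rho (F := F) D hdim x hD hρ hσ (Or.inr (Or.inr ⟨hr, hτ⟩))
  refine ⟨L, hL1, hL2.trans (Nat.cast_le.2 ?_)⟩
  rw [if_pos hr]

end Pool.Agent.H.MP_4c5958_al.SQ
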