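import Pool.Agent.H.MP_4c5958_al.SQ.Df

/-!
# Module SQ/Rec: the recursion for `v` and the action of `τ`
-/

set_option autoImplicit false

noncomputable section

namespace Pool.Agent.H.MP_4c5958_al.SQ

open Pool.Agent.H.MP_4c5958_al.SO

universe u

variable {K E : Type u} [Field K] [Field E] [Algebra K E] (D : GD K E)

theorem Rec_mod (n : ℕ) : D.σ ^ n = D.σ ^ (n % 5) := by
  have h := pow_mod_orderOf D.σ n
  rw [D.hσ] at h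
  exact h.symm

theorem Rec_ts (a : ℕ) : D.τ * D.σ ^ a = D.σ ^ (D.k * a) * D.τ := by
  induction a with
  | zero => rw [mul_zero, pow_zero, mul_one, one_mul]
  | succ a ih =>
    rw [pow_succ, ← mul_assoc, ih, mul_assoc, D.rel, ← mul_assoc, ← pow_add]
    rfl

theorem Rec_tau {s : E} (hs : D.τ s = s) (a : ℕ) :
    D.τ ((D.σ ^ a) s) = (D.σ ^ (D.k * a % 5)) s := by
  rw [← Rec_mod, ← AlgEquiv.mul_apply, Rec_ts, AlgEquiv.mul_apply, hs]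

theorem Rec_sig (s : E) (a : ℕ) : D.σ ((D.σ ^ a) s) = (D.σ ^ ((a + 1) % 5)) s := by
  rw [← Rec_mod, pow_succ', AlgEquiv.mul_apply]

/-- `σ ^ 2 v = ρ σ v - v` (`σ ^ 5 = 1`, `D.hσ`). -/
theorem vv_rec {ρ : E} (hρ : ρ ^ 2 + ρ = 1) (hσρ : D.σ ρ = ρ) (s : E) :
    D.σ (D.σ (vv D ρ s)) = ρ * D.σ (vv D ρ s) - vv D ρ s := by
  have h0 : s = (D.σ ^ 0) s := by rw [pow_zero, AlgEquiv.one_apply]
  have h1 : D.σ s = (D.σ ^ 1) s := by rw [pow_one]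
  have e0 : D.σ ((D.σ ^ 0) s) = (D.σ ^ 1) s := Rec_sig D s 0
  have e1 : D.σ ((D.σ ^ 1) s) = (D.σ ^ 2) s := Rec_sig D s 1
  have e2 : D.σ ((D.σ ^ 2) s) = (D.σ ^ 3) s := Rec_sig D s 2
  have e3 : D.σ ((D.σ ^ 3) s) = (D.σ ^ 4) s := Rec_sig D s 3
  have e4 : D.σ ((D.σ ^ 4) s) = (D.σ ^ 0) s := Rec_sig D s 4
  unfold vv
  rw [h1]
  simp only [map_sub, map_add, map_mul, hσρ, e0, e1, e2, e3, e4]
  linear_combination (-(D.σ ^ 4) s + (D.σ ^ 3) s) * hρ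

/-- `k = 4`: `τ v = - v` (`τ σ ^ j = σ ^ (4 j) τ`, `σ ^ 5 = 1`). -/
theorem tau_four {ρ : E} (hk : D.k = 4) (hτρ : D.τ ρ = ρ) {s : E} (hs : D.τ s = s) :
    D.τ (vv D ρ s) = - vv D ρ s := by
  have h1 : D.σ s = (D.σ ^ 1) s := by rw [pow_one]
  have e1 := Rec_tau D hs 1
  have e2 := Rec_tau D hs 2
  have e3 := Rec_tau D hs 3
  have e4 := Rec_tau D hs 4
  rw [hk] at e1 e2 e3 e4
  have f1 : D.τ ((D.σ ^ 1) s) = (D.σ ^ 4) s := e1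
  have f2 : D.τ ((D.σ ^ 2) s) = (D.σ ^ 3) s := e2
  have f3 : D.τ ((D.σ ^ 3) s) = (D.σ ^ 2) s := e3
  have f4 : D.τ ((D.σ ^ 4) s) = (D.σ ^ 1) s := e4
  unfold vv
  rw [h1]
  simp only [map_sub, map_add, map_mul, hτρ, f1, f2, f3, f4]
  ring

/-- `k = 2`: `τ v = (1 + ρ) v` (`τ σ ^ j = σ ^ (2 j) τ`, `ρ (1 + ρ) = 1`). -/
theorem tau_two {ρ : E} (hρ : ρ ^ 2 + ρ = 1) (hk : D.k = 2) (hτρ : D.τ ρ = -1 - ρ) {s : E}
    (hs : D.τ s = s) : D.τ (vv D ρ s) = (1 + ρ) * vv D ρ s := by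
  have h1 : D.σ s = (D.σ ^ 1) s := by rw [pow_one]
  have e1 := Rec_tau D hs 1
  have e2 := Rec_tau D hs 2
  have e3 := Rec_tau D hs 3
  have e4 := Rec_tau D hs 4
  rw [hk] at e1 e2 e3 e4
  have f1 : D.τ ((D.σ ^ 1) s) = (D.σ ^ 2) s := e1
  have f2 : D.τ ((D.σ ^ 2) s) = (D.σ ^ 4) s := e2
  have f3 : D.τ ((D.σ ^ 3) s) = (D.σ ^ 1) s := e3
  have f4 : D.τ ((D.σ ^ 4) s) = (D.σ ^ 3) s := e4
  unfold vv
  rw [h1]
  simp only [map_sub, map_add, map_mul, map_neg, map_one, hτρ, f1, f2, f3, f4]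
  linear_combination ((D.σ ^ 2) s - (D.σ ^ 3) s) * hρ

end Pool.Agent.H.MP_4c5958_al.SQ
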